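import Mathlib
import Pool.Agent.Y740.RL.Ell4

/-!
# A relative Lehmer bound over torsion fields of elliptic curves

Let `W` be an elliptic curve over a number field `K`, which has potentially good, supersingular
reduction at a prime `𝔭` of `K` above the prime number `p`. There is a constant `C` such that for
every group `Γ` of torsion points of `W` of order prime to `p` the Néron-Tate height of every point
`P` of infinite order of `W`, of degree `D` over the field `K(Γ)`, is at least
`exp (- C * sqrt (1 + log D)) / (C * D)`. This is the inequality which says that `Γ` is a Lehmer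
group, for points of the elliptic curve `W`, up to the factor `exp (- C * sqrt (1 + log D))`.

The formal statement is for the number fields `N` which are generated over `K` by coordinates of
torsion points of order prime to `p`, with a constant which does not depend on `N`; the field
`K(Γ)` is the union of the fields `N = K(Γ')` for the finite subsets `Γ'` of `Γ`.

The proof uses that a power of Frobenius at `𝔭` acts on `Γ`, up to signs, as a power of `p`: the
first coordinates of the points of `Γ` are periodic points of the map given by the multiplication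
by `p`, and the bound follows from a lower bound for canonical heights over fields generated by
periodic points of rational maps with potentially good, purely inseparable reduction.
-/

set_option autoImplicit false

namespace Pool.Agent.Results.MP_187c26_nt.EllipticTorsionFields

open MvPolynomial NumberField Module Filter Topology
open scoped Pointwise

/-- A pair `G` of binary forms of degree `q` over the number field `k` has *good, purely
inseparable reduction* at the finite place `v`: all coefficients are `v`-integral, those of the
monomials other than `X ^ q` and `Y ^ q` are in the maximal ideal, and the determinant of the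
coefficients of `X ^ q` and `Y ^ q` is a unit at `v`. -/
def GoodInseparable {k : Type} [Field k] [NumberField k] (v : FinitePlace k) (q : ℕ)
    (G : Fin 2 → MvPolynomial (Fin 2) k) : Prop :=
  (∀ i m, v ((G i).coeff m) ≤ 1) ∧
  (∀ i m, m ≠ Finsupp.single 0 q → m ≠ Finsupp.single 1 q → v ((G i).coeff m) < 1) ∧
  v ((G 0).coeff (Finsupp.single 0 q) * (G 1).coeff (Finsupp.single 1 q) -
    (G 0).coeff (Finsupp.single 1 q) * (G 1).coeff (Finsupp.single 0 q)) = 1

/-- The pair `F` of binary forms over `K` has *potentially good, purely inseparable reduction*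
above the prime ideal `𝔭` of `K`, which contains `p`: there are a number field `K'` containing `K`,
an invertible matrix `A` over `K'` and a pair `G` of binary forms of degree `q` over `K'` with
`A ∘ F = G ∘ A`, which has good, purely inseparable reduction at a finite place `v` of `K'` above
`𝔭`. -/
def PotentiallyInseparable {K : Type} [Field K] [NumberField K] (𝔭 : Ideal (𝓞 K)) (p q : ℕ)
    (F : Fin 2 → MvPolynomial (Fin 2) K) : Prop :=
  ∃ (K' : Type) (_ : Field K') (_ : NumberField K') (_ : Algebra K K')
    (A : Matrix (Fin 2) (Fin 2) K') (G : Fin 2 → MvPolynomial (Fin 2) K') (v : FinitePlace K'),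
    A.det ≠ 0 ∧ (∀ i, (G i).IsHomogeneous q) ∧
    (∀ i, ∑ j, C (A i j) * map (algebraMap K K') (F j) =
      bind₁ (fun k => ∑ l, C (A k l) * X l) (G i)) ∧
    v.maximalIdeal.asIdeal.under (𝓞 K) = 𝔭 ∧ v (p : K') < 1 ∧ GoodInseparable v q G

/-- the map defined by a pair of forms, on coordinate vectors over an extension -/
noncomputable def evalMap {K L : Type} [Field K] [Field L] [Algebra K L]
    (F : Fin 2 → MvPolynomial (Fin 2) K) (y : Fin 2 → L) : Fin 2 → L := fun i => aeval y (F i)

/-- the coordinate vector `(x : 1)` of the first coordinate of a point of the curve `W` over `L`,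
and `(1 : 0)` for the point at infinity -/
noncomputable def xCoord {L : Type} [Field L] {W : WeierstrassCurve.Affine L} :
    W.Point → Fin 2 → L
  | .zero => ![1, 0]
  | .some x _ _ => ![x, 1]

open Classical in
/-- the pair `F` of forms of degree `p ^ 2` gives the multiplication by `p` of the curve `W` on
first coordinates, `x(p P) = F(x(P))`, for the points over all number fields containing `K` -/
def IsMultiplication {K : Type} [Field K] [NumberField K] (W : WeierstrassCurve.Affine K) (p : ℕ)
    (F : Fin 2 → MvPolynomial (Fin 2) K) : Prop :=
  (∀ i, (F i).IsHomogeneous (p ^ 2)) ∧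
  ∀ (L : Type) [Field L] [NumberField L] [Algebra K L] (P : (W.baseChange L).Point),
    ∃ c : L, c ≠ 0 ∧ evalMap F (xCoord P) = c • xCoord (p • P)

/-- The elliptic curve `W` is *potentially supersingular* at the prime ideal `𝔭` of `K`, which
contains `p`: the pair of forms which gives the multiplication by `p` on first coordinates has
potentially good, purely inseparable reduction above `𝔭`. -/
def PotentiallySupersingular {K : Type} [Field K] [NumberField K] (W : WeierstrassCurve.Affine K)
    (𝔭 : Ideal (𝓞 K)) (p : ℕ) : Prop :=
  ∃ F : Fin 2 → MvPolynomial (Fin 2) K,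
    IsMultiplication W p F ∧ PotentiallyInseparable 𝔭 p (p ^ 2) F

open Classical in
/-- `h` is the Néron-Tate height (relative to the origin) of the point `P` over the number field
`L`, computed with the multiplication by `m`: half the limit of `h(x(m ^ k P)) / m ^ (2 k)`, where
`h` is the absolute logarithmic Weil height, that is Mathlib's (relative) `Height.logHeight`
divided by `[L : ℚ]` -/
def IsNeronTateHeight {L : Type} [Field L] [NumberField L] {W : WeierstrassCurve.Affine L}
    (m : ℕ) (P : W.Point) (h : ℝ) : Prop :=
  Tendsto (fun k : ℕ => Height.logHeight (xCoord (m ^ k • P)) /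
    (2 * (finrank ℚ L : ℝ) * (m : ℝ) ^ (2 * k))) atTop (𝓝 h)

open Classical in
/-- `t` is a coordinate of a point of order prime to `p` of the curve `W` over the field `N` -/
def IsTorsionCoordinate {K : Type} [Field K] [NumberField K] (W : WeierstrassCurve.Affine K)
    (p : ℕ) {N : Type} [Field N] [NumberField N] [Algebra K N] (t : N) : Prop :=
  ∃ (x y : N) (h : (W.baseChange N).Nonsingular x y),
    (∃ m : ℕ, m.Coprime p ∧ m • (WeierstrassCurve.Affine.Point.some x y h :
      (W.baseChange N).Point) = 0) ∧ (t = x ∨ t = y)

open Classical in
/-- **Main result.** -/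
theorem result (K : Type) [Field K] [NumberField K] (W : WeierstrassCurve.Affine K)
    [W.IsElliptic] (p : ℕ) (hp : p.Prime) (𝔭 : Ideal (𝓞 K))
    (hss : PotentiallySupersingular W 𝔭 p) :
    ∃ C : ℝ, 0 < C ∧ ∀ (N L : Type) [Field N] [NumberField N] [Field L] [NumberField L]
      [Algebra K N] [Algebra N L] [Algebra K L] [IsScalarTower K N L],
      Algebra.adjoin K {t : N | IsTorsionCoordinate W p t} = ⊤ →
      ∀ P : (W.baseChange L).Point, ¬ IsOfFinAddOrder P →
      ∃ h : ℝ, IsNeronTateHeight p P h ∧
        Real.exp (-(C * Real.sqrt (1 + Real.log (finrank N L)))) / (C * finrank N L) ≤ h := by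
  obtain ⟨F, ⟨hF, hmul⟩, K', i1, i2, i3, A, G, v, hA, hG, hconj, -, hv, h1, h2, h3⟩ := hss
  obtain ⟨C, hC, hmain⟩ := Pool.Agent.Y740.RL.torsion_topQ W hp F hF K' A hA G hG hconj
    v hv ⟨h1, h2, h3⟩
  refine ⟨2 * C, by positivity, ?_⟩
  intro N L _ _ _ _ _ _ _ _ hgen P hP
  have hxc : ∀ (M : Type) [Field M] (V : WeierstrassCurve.Affine M) (Q : V.Point),
      xCoord Q = Pool.Agent.Y740.RL.xc Q := by
    intro M _ V Q
    cases Q <;> rfl
  have hmul' : ∀ (M : Type) [Field M] [NumberField M] [Algebra K M]
      (Q : (W.baseChange M).Point), ∃ c : M, c ≠ 0 ∧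
      Pool.Agent.H420R3.act F (Pool.Agent.Y740.RL.xc Q) =
        c • Pool.Agent.Y740.RL.xc (p • Q) := by
    intro M _ _ _ Q
    obtain ⟨c, hc, hc'⟩ := hmul M Q
    rw [hxc, hxc] at hc'
    exact ⟨c, hc, hc'⟩
  obtain ⟨h, hlim, hb⟩ := hmain N L (hmul' N) (hmul' L) hgen P hP
  refine ⟨h / 2, ?_, ?_⟩
  · unfold IsNeronTateHeight
    refine (hlim.div_const 2).congr fun k => ?_
    rw [hxc, div_div]
    congr 1
    ring
  · have hexp : Real.exp (-(2 * C * Real.sqrt (1 + Real.log (finrank N L)))) ≤
        Real.exp (-(C * Real.sqrt (1 + Real.log (finrank N L)))) := by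
      apply Real.exp_le_exp.mpr
      have : 0 ≤ C * Real.sqrt (1 + Real.log (finrank N L : ℝ)) := by positivity
      linarith
    calc Real.exp (-(2 * C * Real.sqrt (1 + Real.log (finrank N L)))) / (2 * C * finrank N L) ≤
        Real.exp (-(C * Real.sqrt (1 + Real.log (finrank N L)))) / (2 * C * finrank N L) := by
          gcongr
      _ = (Real.exp (-(C * Real.sqrt (1 + Real.log (finrank N L)))) / (C * finrank N L)) / 2 := by
          rw [div_div]
          congr 1
          ring
      _ ≤ h / 2 := by gcongr

end Pool.Agent.Results.MP_187c26_nt.EllipticTorsionFields
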