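import Mathlib
import Pool.Agent.Y642.ND.ATop

/-!
# Rémond's inequality at points with many conjugates over local fields or real conjugates

Let `x = (x_1, …, x_n)` be a point with algebraic coordinates, `F = ℚ(x_1, …, x_n)`,
`D = [F : ℚ]` and `h = h(x_1) + … + h(x_n)` its height. Let `δ ≥ 1` be an integer such that no
nonzero polynomial with rational coefficients and with all partial degrees less than `δ` vanishes
at `x`. (The largest such `δ` is, up to factors depending on `n` only, the obstruction index of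
`x` over `ℚ`; it is at most `D ^ (1 / n)`.)

Let `r` be at most the number of embeddings of `F` in `ℝ`, that is, of real conjugates of `x`.
Let `K_i` be finitely many (or no) nonarchimedean local fields of characteristic zero over
distinct primes `p_i`, with ramification index `e_i` and residue field with `q_i` elements, and
let `T_i` be a set of `R_i` embeddings of `F` in `K_i`, that is, of `R_i` conjugates of `x` over
`ℚ` with coordinates in `K_i`. Put
`X = ∑ (log p_i / (e_i q_i)) R_i ^ (1 + 1 / n) + r ^ (1 + 1 / n) / (3 log (2 D + 2))`. Then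

* if the coordinates of the `R_i` conjugates are integers of `K_i`, then
  `∑ (2 log p_i / (e_i q_i)) (n / (n + 1) R_i ^ (1 + 1 / n) - (n (q_i - 1) + 2) R_i)
    + r ^ (1 + 1 / n) / (24 log (2 D + 2)) ≤ D log D + 7 n r + 4 (D ^ 2 / δ ^ (n - 1)) h`;
* in general, if `R_i ≥ 2 (4 n q_i + 8) ^ n` and `X ≥ 16 (D log D + 7 n r)`, then
  `h ≥ δ ^ (n - 1) X / (72 D ^ 2)`, and `δ h ≥ (2 κ / 9) log D` when `δ ^ n ≥ κ D`.

So Rémond's inequality holds, with a logarithm to spare, for all points of maximal obstruction
index `δ ≥ (κ D) ^ (1 / n)` with at least about `(D log D) ^ (n / (n + 1))` conjugates over some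
nonarchimedean local field, or with at least about `(D (log D) ^ 2) ^ (n / (n + 1))` real
conjugates.

The method: a linear version of a theorem of Olson on sums of sets shows that the monomials with
exponents at most `2 D / δ ^ (n - 1)` contain a basis of `F`. Its discriminant is bounded above in
terms of the height by Hadamard's inequality; expanding the rows of the conjugates over `K_i`
along Newton polynomials in `n` variables adapted to the residue classes of `K_i` shows that it is
divisible by a high power of `p_i`, and replacing the rows of the real conjugates by divided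
differences in `n` variables on cells of a subdivision of real space saves a power of two.
-/

set_option autoImplicit false

open Polynomial Module NumberField ValuativeRel

universe u v

namespace Pool.Agent.Results.MP_187c26_nt.LocalConjugates

/-- A nonarchimedean local field `K` of characteristic zero (in the sense of Mathlib) with the
prime number `p` below it and its ramification index `e`, so `p 𝒪 = 𝔪 ^ e`. -/
structure Place : Type (u + 1) where
  p : ℕ
  hp : p.Prime
  K : Type u
  [fld : Field K]
  [val : ValuativeRel K]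
  [top : TopologicalSpace K]
  [loc : IsNonarchimedeanLocalField K]
  [char0 : CharZero K]
  e : ℕ
  he : 1 ≤ e
  ram : Ideal.span {((p : ℕ) : 𝒪[K])} = 𝓂[K] ^ e

attribute [instance] Place.fld Place.val Place.top Place.loc Place.char0

/-- the number of elements of the residue field -/
noncomputable def Place.q (P : Place.{u}) : ℕ := Nat.card 𝓀[P.K]

/-- `f_j` is an irreducible polynomial with integer coefficients with the zero `x_j` -/
def IsMin {F : Type} [Field F] {n : ℕ} (x : Fin n → F) (f : Fin n → ℤ[X]) : Prop :=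
  ∀ j, Irreducible (f j) ∧ aeval (x j) (f j) = 0

/-- The height `∑ h(x_j)` of a point whose coordinates are zeros of the irreducible polynomials
`f_j` with integer coefficients: `h(x_j)` is the logarithm of the Mahler measure of `f_j` divided
by its degree, the absolute logarithmic Weil height of `x_j`. -/
noncomputable def height {n : ℕ} (f : Fin n → ℤ[X]) : ℝ :=
  ∑ j, Real.log ((f j).map (Int.castRingHom ℂ)).mahlerMeasure / (f j).natDegree

/-- no nonzero polynomial over `ℚ` with all partial degrees less than `δ` vanishes at `x` -/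
def NoRelation {F : Type} [Field F] [NumberField F] {n : ℕ} (x : Fin n → F) (δ : ℕ) : Prop :=
  ∀ G : MvPolynomial (Fin n) ℚ, G ≠ 0 → (∀ j, G.degreeOf j < δ) → MvPolynomial.aeval x G ≠ 0

/-- the sum `X` -/
noncomputable def locSum (n : ℕ) {ι : Type v} [Fintype ι] (P : ι → Place.{u}) (R : ι → ℕ)
    (D : ℝ) (r : ℕ) : ℝ :=
  ∑ i, Real.log (P i).p / ((P i).e * (P i).q) * (R i : ℝ) ^ (1 + 1 / (n : ℝ)) +
    (r : ℝ) ^ (1 + 1 / (n : ℝ)) / (3 * Real.log (2 * D + 2))

/-- the sum on the left of the first inequality -/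
noncomputable def gainSum (n : ℕ) {ι : Type v} [Fintype ι] (P : ι → Place.{u}) (R : ι → ℕ)
    (D : ℝ) (r : ℕ) : ℝ :=
  ∑ i, 2 * Real.log (P i).p / ((P i).e * (P i).q) *
    ((n : ℝ) / (n + 1) * (R i : ℝ) ^ (1 + 1 / (n : ℝ)) - (n * (((P i).q : ℝ) - 1) + 2) * R i) +
    (r : ℝ) ^ (1 + 1 / (n : ℝ)) / (24 * Real.log (2 * D + 2))

/-- **Rémond's inequality at points with many conjugates over local fields or real conjugates.** -/
theorem result {n : ℕ} (hn : 1 ≤ n) {F : Type} [Field F] [NumberField F] (x : Fin n → F)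
    (hx : Algebra.adjoin ℚ (Set.range x) = ⊤) (f : Fin n → ℤ[X]) (hf : IsMin x f)
    (h D : ℝ) (hh : h = height f) (hD : D = finrank ℚ F)
    (δ : ℕ) (hδ : 1 ≤ δ) (hobs : NoRelation x δ) {ι : Type v} [Fintype ι]
    (P : ι → Place.{u}) (hinj : Function.Injective fun i => (P i).p)
    (T : ∀ i, Finset (F →+* (P i).K)) (R : ι → ℕ) (hR : ∀ i, R i = (T i).card)
    (r : ℕ) (hr : r ≤ InfinitePlace.nrRealPlaces F) :
    ((∀ i, ∀ τ ∈ T i, ∀ j, τ (x j) ∈ 𝒪[(P i).K]) →
      gainSum n P R D r ≤ D * Real.log D + 7 * n * r + 4 * (D ^ 2 / δ ^ (n - 1)) * h) ∧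
    ((∀ i, 2 * (4 * n * (P i).q + 8) ^ n ≤ R i) →
      16 * (D * Real.log D + 7 * n * r) ≤ locSum n P R D r →
      locSum n P R D r ≤ 72 * (D ^ 2 / δ ^ (n - 1)) * h ∧
      ∀ κ : ℝ, 0 < κ → κ * D ≤ δ ^ n → 2 / 9 * κ * Real.log D ≤ δ * h) := by
  obtain rfl : R = fun i => (T i).card := funext hR
  subst hh hD
  have hinj' : Set.InjOn (fun i => (P i).p) (Finset.univ : Finset ι) := hinj.injOn
  let P' : ι → Pool.Agent.Y642.LZ.Place.{u} := fun i =>
    { p := (P i).p, hp := (P i).hp, K := (P i).K, e := (P i).e, he := (P i).he, ram := (P i).ram }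
  obtain ⟨h1, h2⟩ := Pool.Agent.Y642.ND.atop hn hx (fun j => (hf j).1)
    (fun j => (hf j).2) hδ hobs Finset.univ P' hinj' T hr
  have hδ0 : (0 : ℝ) < δ := by exact_mod_cast hδ
  have hD0 : (0 : ℝ) < finrank ℚ F := by exact_mod_cast (finrank_pos : 0 < finrank ℚ F)
  refine ⟨fun hT => h1 fun i _ τ hτ j => hT i τ hτ j, fun hR2 hX => ?_⟩
  have h3 : locSum n P (fun i => (T i).card) (finrank ℚ F) r ≤
      72 * ((finrank ℚ F : ℝ) ^ 2 / (δ : ℝ) ^ (n - 1)) * height f :=
    h2 (fun i _ => by exact_mod_cast hR2 i) hX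
  refine ⟨h3, fun κ hκ hκD => ?_⟩
  set X := locSum n P (fun i => (T i).card) (finrank ℚ F) r with hXdef
  set D : ℝ := (finrank ℚ F : ℝ) with hDdef
  set h : ℝ := height f with hh
  have hpow : (0 : ℝ) < (δ : ℝ) ^ (n - 1) := by positivity
  have hlog : 0 ≤ Real.log D := by
    rw [hDdef]
    exact Real.log_natCast_nonneg _
  have h4 : (δ : ℝ) ^ (n - 1) * X ≤ 72 * D ^ 2 * h := by
    have h5 : 72 * (D ^ 2 / (δ : ℝ) ^ (n - 1)) * h = 72 * D ^ 2 * h / (δ : ℝ) ^ (n - 1) := by ring
    rw [h5, le_div_iff₀ hpow] at h3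
    linarith
  have h5 : (δ : ℝ) ^ n * X ≤ 72 * D ^ 2 * (δ * h) := by
    have h6 : (δ : ℝ) ^ n = δ * (δ : ℝ) ^ (n - 1) := by
      rw [← pow_succ']
      congr 1
      omega
    have h7 := mul_le_mul_of_nonneg_left h4 hδ0.le
    rw [h6]
    linarith
  have hX' : 16 * (D * Real.log D) ≤ X := by
    have h8 : (0 : ℝ) ≤ 7 * n * r := by positivity
    linarith
  have hX0 : 0 ≤ X := le_trans (by positivity) hX'
  have h6 : κ * D * (16 * (D * Real.log D)) ≤ 72 * D ^ 2 * (δ * h) :=
    (mul_le_mul hκD hX' (by positivity) (by positivity)).trans h5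
  have h7 : 72 * D ^ 2 * (2 / 9 * κ * Real.log D) ≤ 72 * D ^ 2 * (δ * h) := by
    have h8 : 72 * D ^ 2 * (2 / 9 * κ * Real.log D) = κ * D * (16 * (D * Real.log D)) := by ring
    rw [h8]
    exact h6
  exact le_of_mul_le_mul_left h7 (by positivity)

end Pool.Agent.Results.MP_187c26_nt.LocalConjugates
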