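import Mathlib
import Pool.Agent.Results.MP_f61260_nt.MixedRadicalFields

set_option autoImplicit false

/-!
# Rémond's inequality for groups of radicals of infinitely many prime orders

All fields are subfields of `AlgebraicClosure ℚ`; `G` is the torus of dimension `n`. The groups are
`Γ = Λ^n`, where `Λ` is generated by roots of unity and by compatible roots `a_i^{1/m}` of finitely
many squarefree integers, `m` composed of the primes of possibly infinite sets `P_i`. We prove
Rémond's inequality (in the form of an inequality against every hypersurface, over any field, which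
contains the subvariety) for all translates of subtori of `G` by points with coordinates in the
field generated by `Γ`. The degree one case `n = 1` is the theorem of
`Pool/Agent/Results/MP_f61260_nt/MixedRadicalFields.lean`, which is the main input.
-/

namespace Pool.Agent.Results.MP_187c26_nt.RadicalTranslates

open Pool.Agent.Results.MP_f61260_nt.MixedRadicalFields
open Pool.Agent.H58P (ht)
open Pool.Agent.H58R (ht_nonneg ht_zpow ht_prod_le)

/-- the translate by the point `x` of the subtorus which consists of the points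
`(t^(e_1), ..., t^(e_n))`, where `t^(e_i)` is the product of the `t_j^(e_ij)` -/
def translate {n d : ℕ} (x : Fin n → AlgebraicClosure ℚ) (e : Fin n → Fin d → ℤ) :
    Set (Fin n → AlgebraicClosure ℚ) :=
  {y | ∃ t : Fin d → (AlgebraicClosure ℚ)ˣ,
    ∀ i, y i = x i * ∏ j, (t j : AlgebraicClosure ℚ) ^ e i j}

/-- the translate lies in the torus, and no monomial with nonzero exponent is constant on it with
value in the division group of `Λ` (that is, no proper torsion subvariety relative to `Λ^n`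
contains it) -/
def IsTransverse (Λ : Subgroup (AlgebraicClosure ℚ)ˣ) {n d : ℕ}
    (x : Fin n → AlgebraicClosure ℚ) (e : Fin n → Fin d → ℤ) : Prop :=
  (∀ i, x i ≠ 0) ∧ ∀ v : Fin n → ℤ, (∀ j, ∑ i, v i * e i j = 0) →
    InDivisionGroup Λ (∏ i, x i ^ v i) → v = 0

/-- the group generated by the roots of unity of order composed of the primes in `S` and by the
roots `a_i^(1/m)`, `m ∈ Exponents a_i P_i` -/
noncomputable def radicalGroup {r : ℕ} (S : Set ℕ) (a : Fin r → ℕ) (P : Fin r → Set ℕ)
    (ρ : Fin r → ℕ → AlgebraicClosure ℚ) : Subgroup (AlgebraicClosure ℚ)ˣ :=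
  Subgroup.closure {g | (∃ m : ℕ, (0 < m ∧ ∀ p : ℕ, p.Prime → p ∣ m → p ∈ S) ∧ g ^ m = 1) ∨
    ∃ i, ∃ m ∈ Exponents (a i) (P i), (g : AlgebraicClosure ℚ) = ρ i m}

/-- the group `Λ^n` -/
noncomputable def power (n : ℕ) (Λ : Subgroup (AlgebraicClosure ℚ)ˣ) :
    Subgroup (Fin n → (AlgebraicClosure ℚ)ˣ) :=
  Subgroup.pi Set.univ fun _ => Λ

/-- `ℚ(Γ)`, the field generated by the coordinates of the points of `Γ` -/
noncomputable def coordField {n : ℕ} (Γ : Subgroup (Fin n → (AlgebraicClosure ℚ)ˣ)) :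
    IntermediateField ℚ (AlgebraicClosure ℚ) :=
  IntermediateField.adjoin ℚ {y | ∃ g ∈ Γ, ∃ i, y = (g i : AlgebraicClosure ℚ)}

/-- the character `t ↦ ∏ t_j^(u_j)` -/
noncomputable def chi {d : ℕ} (u : Fin d → ℤ) :
    (Fin d → (AlgebraicClosure ℚ)ˣ) →* AlgebraicClosure ℚ where
  toFun t := ∏ j, (t j : AlgebraicClosure ℚ) ^ u j
  map_one' := by simp
  map_mul' s t := by
    rw [← Finset.prod_mul_distrib]
    refine Finset.prod_congr rfl fun j _ => ?_
    rw [Pi.mul_apply, Units.val_mul, mul_zpow]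

lemma chi_apply {d : ℕ} (u : Fin d → ℤ) (t : Fin d → (AlgebraicClosure ℚ)ˣ) :
    chi u t = ∏ j, (t j : AlgebraicClosure ℚ) ^ u j := rfl

lemma two_zpow_inj {m k : ℤ} (h : (2 : AlgebraicClosure ℚ) ^ m = 2 ^ k) : m = k := by
  have h1 : (algebraMap ℚ (AlgebraicClosure ℚ)) ((2 : ℚ) ^ m) =
      (algebraMap ℚ (AlgebraicClosure ℚ)) ((2 : ℚ) ^ k) := by
    rw [map_zpow₀, map_zpow₀, map_ofNat]
    exact h
  have h2 : (2 : ℚ) ^ m = 2 ^ k := (algebraMap ℚ (AlgebraicClosure ℚ)).injective h1
  exact zpow_right_injective₀ (by norm_num) (by norm_num) h2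

lemma chi_injective {d : ℕ} : Function.Injective (chi (d := d)) := by
  intro u u' h
  funext j
  have h2 : (2 : AlgebraicClosure ℚ) ≠ 0 := two_ne_zero
  have h1 := DFunLike.congr_fun h (Pi.mulSingle j (Units.mk0 2 h2))
  rw [chi_apply, chi_apply] at h1
  have key : ∀ w : Fin d → ℤ, ∏ k, ((Pi.mulSingle j (Units.mk0 (2 : AlgebraicClosure ℚ) h2) :
      Fin d → (AlgebraicClosure ℚ)ˣ) k : AlgebraicClosure ℚ) ^ w k = 2 ^ w j := by
    intro w
    rw [Finset.prod_eq_single j]
    · simp
    · intro k _ hk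
      rw [Pi.mulSingle_eq_of_ne hk]
      simp
    · intro hj
      exact absurd (Finset.mem_univ j) hj
  rw [key, key] at h1
  exact two_zpow_inj h1

/-- the value of a Laurent monomial at a point of the translate -/
lemma mono_eval {n d : ℕ} (x : Fin n → AlgebraicClosure ℚ) (e : Fin n → Fin d → ℤ)
    (t : Fin d → (AlgebraicClosure ℚ)ˣ) (v : Fin n → ℤ) :
    ∏ i, (x i * ∏ j, (t j : AlgebraicClosure ℚ) ^ e i j) ^ v i =
      (∏ i, x i ^ v i) * chi (fun j => ∑ i, v i * e i j) t := by
  rw [chi_apply]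
  have h1 : ∀ i, (x i * ∏ j, (t j : AlgebraicClosure ℚ) ^ e i j) ^ v i =
      x i ^ v i * ∏ j, (t j : AlgebraicClosure ℚ) ^ (v i * e i j) := by
    intro i
    rw [mul_zpow, ← Finset.prod_zpow]
    congr 1
    refine Finset.prod_congr rfl fun j _ => ?_
    rw [← zpow_mul, mul_comm]
  simp_rw [h1]
  rw [Finset.prod_mul_distrib, Finset.prod_comm]
  congr 1
  refine Finset.prod_congr rfl fun j _ => ?_
  have : ∀ s : Finset (Fin n), ∏ i ∈ s, (t j : AlgebraicClosure ℚ) ^ (v i * e i j) =
      (t j : AlgebraicClosure ℚ) ^ (∑ i ∈ s, v i * e i j) := by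
    intro s
    classical
    induction s using Finset.induction_on with
    | empty => simp
    | insert b s hb ih =>
      rw [Finset.prod_insert hb, Finset.sum_insert hb, zpow_add₀ (Units.ne_zero _), ih]
  exact this _

/-- a polynomial which vanishes on a translate of a subtorus has two monomials whose quotient is
constant on the translate -/
lemma exists_exponent {n d : ℕ} (x : Fin n → AlgebraicClosure ℚ) (e : Fin n → Fin d → ℤ)
    (hx : ∀ i, x i ≠ 0) (f : MvPolynomial (Fin n) (AlgebraicClosure ℚ)) (hf : f ≠ 0)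
    (hV : ∀ y ∈ translate x e, MvPolynomial.eval y f = 0) :
    ∃ v : Fin n → ℤ, v ≠ 0 ∧ (∀ j, ∑ i, v i * e i j = 0) ∧ ∀ i, |v i| ≤ (f.degreeOf i : ℤ) := by
  classical
  let u : (Fin n →₀ ℕ) → Fin d → ℤ := fun m j => ∑ i, (m i : ℤ) * e i j
  have hninj : ¬ Set.InjOn u (f.support : Set (Fin n →₀ ℕ)) := by
    intro hinj
    have hli : LinearIndependent (AlgebraicClosure ℚ)
        (fun m : f.support => (chi (u m) : (Fin d → (AlgebraicClosure ℚ)ˣ) → AlgebraicClosure ℚ)) := by
      refine (linearIndependent_monoidHom (Fin d → (AlgebraicClosure ℚ)ˣ)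
        (AlgebraicClosure ℚ)).comp (fun m : f.support => chi (u m)) ?_
      intro m m' h
      exact Subtype.ext (hinj m.2 m'.2 (chi_injective h))
    rw [Fintype.linearIndependent_iff] at hli
    have h0 := hli (fun m => f.coeff m * ∏ i, x i ^ (m : Fin n →₀ ℕ) i) (by
      funext t
      rw [Finset.sum_apply, Pi.zero_apply, ← hV (fun i => x i * ∏ j, (t j : AlgebraicClosure ℚ) ^ e i j)
        ⟨t, fun _ => rfl⟩, MvPolynomial.eval_eq', ← Finset.sum_coe_sort f.support]
      refine Finset.sum_congr rfl fun m _ => ?_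
      rw [Pi.smul_apply, smul_eq_mul, mul_assoc]
      congr 1
      have := mono_eval x e t (fun i => ((m : Fin n →₀ ℕ) i : ℤ))
      simp only [zpow_natCast] at this
      rw [this])
    obtain ⟨m, hm⟩ := MvPolynomial.support_nonempty.2 hf
    have h1 := h0 ⟨m, hm⟩
    rcases mul_eq_zero.1 h1 with h | h
    · exact (MvPolynomial.mem_support_iff.1 hm) h
    · exact (Finset.prod_ne_zero_iff.2 fun i _ => pow_ne_zero _ (hx i)) h
  unfold Set.InjOn at hninj
  push Not at hninj
  obtain ⟨m, hm, m', hm', huu, hne⟩ := hninj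
  refine ⟨fun i => (m i : ℤ) - m' i, ?_, ?_, ?_⟩
  · intro h
    apply hne
    ext i
    have := congrFun h i
    simp only [Pi.zero_apply] at this
    omega
  · intro j
    have h := congrFun huu j
    simp only [u] at h
    have : ∑ i, ((m i : ℤ) - m' i) * e i j = ∑ i, (m i : ℤ) * e i j - ∑ i, (m' i : ℤ) * e i j := by
      rw [← Finset.sum_sub_distrib]
      exact Finset.sum_congr rfl fun i _ => by ring
    rw [this, h, sub_self]
  · intro i
    have h1 := MvPolynomial.monomial_le_degreeOf i hm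
    have h2 := MvPolynomial.monomial_le_degreeOf i hm'
    show |((m i : ℤ) - m' i)| ≤ (f.degreeOf i : ℤ)
    rw [abs_le]
    constructor <;> omega

/-- from the inequality for the values of monomials to the inequality for translates -/
lemma of_degree_one {n d : ℕ} (L : IntermediateField ℚ (AlgebraicClosure ℚ))
    (Λ : Subgroup (AlgebraicClosure ℚ)ˣ) (c : ℝ)
    (hL : ∀ β ∈ L, β ≠ 0 → ¬ InDivisionGroup Λ β → c ≤ NumberField.absLogHeight₁ β)
    (x : Fin n → AlgebraicClosure ℚ) (e : Fin n → Fin d → ℤ) (hxL : ∀ i, x i ∈ L)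
    (hx : IsTransverse Λ x e) (f : MvPolynomial (Fin n) (AlgebraicClosure ℚ)) (hf : f ≠ 0)
    (hV : ∀ y ∈ translate x e, MvPolynomial.eval y f = 0) :
    ∀ y ∈ translate x e, c ≤ ∑ i, (f.degreeOf i : ℝ) * NumberField.absLogHeight₁ (y i) := by
  obtain ⟨v, hv0, hve, hvd⟩ := exists_exponent x e hx.1 f hf hV
  have hnd : ¬ InDivisionGroup Λ (∏ i, x i ^ v i) := fun h => hv0 (hx.2 v hve h)
  have hmem : ∏ i, x i ^ v i ∈ L := prod_mem fun i _ => zpow_mem (hxL i) _
  have hne : ∏ i, x i ^ v i ≠ 0 := Finset.prod_ne_zero_iff.2 fun i _ => zpow_ne_zero _ (hx.1 i)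
  have h1 := hL _ hmem hne hnd
  rintro y ⟨t, hyt⟩
  have hht : ∀ w : AlgebraicClosure ℚ, NumberField.absLogHeight₁ w = ht w := fun w =>
    Pool.Agent.H58P.absLogHeight₁_eq _
  simp only [hht] at h1 ⊢
  have hy0 : ∀ i, y i ≠ 0 := by
    intro i
    rw [hyt i]
    exact mul_ne_zero (hx.1 i) (Finset.prod_ne_zero_iff.2 fun j _ => zpow_ne_zero _ (Units.ne_zero _))
  have hyx : ∏ i, y i ^ v i = ∏ i, x i ^ v i := by
    have h2 : ∏ i, y i ^ v i =
        ∏ i, (x i * ∏ j, (t j : AlgebraicClosure ℚ) ^ e i j) ^ v i :=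
      Finset.prod_congr rfl fun i _ => by rw [hyt i]
    rw [h2, mono_eval]
    have h3 : chi (fun j => ∑ i, v i * e i j) t = 1 := by
      rw [chi_apply]
      exact Finset.prod_eq_one fun j _ => by rw [hve j, zpow_zero]
    rw [h3, mul_one]
  rw [← hyx] at h1
  refine h1.trans ((ht_prod_le _ _).trans (Finset.sum_le_sum fun i _ => ?_))
  rw [ht_zpow _ (hy0 i)]
  refine mul_le_mul_of_nonneg_right ?_ (ht_nonneg _)
  have h4 : ((|v i| : ℤ) : ℝ) ≤ ((f.degreeOf i : ℤ) : ℝ) := by exact_mod_cast hvd i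
  rw [Int.cast_abs] at h4
  exact_mod_cast h4

lemma IsTransverse.mono {Λ Λ' : Subgroup (AlgebraicClosure ℚ)ˣ} (h : Λ ≤ Λ') {n d : ℕ}
    {x : Fin n → AlgebraicClosure ℚ} {e : Fin n → Fin d → ℤ} (hx : IsTransverse Λ' x e) :
    IsTransverse Λ x e :=
  ⟨hx.1, fun v hv ⟨m, hm, g, hg, hgm⟩ => hx.2 v hv ⟨m, hm, g, h hg, hgm⟩⟩

lemma group_le {r : ℕ} {a : Fin r → ℕ} {P : Fin r → Set ℕ} {ρ : Fin r → ℕ → AlgebraicClosure ℚ}
    (hD : Data a P ρ) (S : Set ℕ) : group a ≤ radicalGroup S a P ρ := by
  rw [group, Subgroup.closure_le]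
  rintro g ⟨i, hg⟩
  refine Subgroup.subset_closure (Or.inr ⟨i, 1, one_exponents _ _, ?_⟩)
  rw [hg, (hD.1 i).2.2.2.1]

lemma coordField_le {r : ℕ} (n : ℕ) (S : Set ℕ) (a : Fin r → ℕ) (P : Fin r → Set ℕ)
    (ρ : Fin r → ℕ → AlgebraicClosure ℚ) :
    coordField (power n (radicalGroup S a P ρ)) ≤ radicalField (cyclotomicField S) a P ρ := by
  set F := radicalField (cyclotomicField S) a P ρ with hF
  let U : Subgroup (AlgebraicClosure ℚ)ˣ :=
    { carrier := {g | (g : AlgebraicClosure ℚ) ∈ F}
      mul_mem' := by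
        intro g g' hg hg'
        show ((g * g' : (AlgebraicClosure ℚ)ˣ) : AlgebraicClosure ℚ) ∈ F
        rw [Units.val_mul]
        exact mul_mem hg hg'
      one_mem' := by
        show ((1 : (AlgebraicClosure ℚ)ˣ) : AlgebraicClosure ℚ) ∈ F
        rw [Units.val_one]
        exact one_mem _
      inv_mem' := by
        intro g hg
        show ((g⁻¹ : (AlgebraicClosure ℚ)ˣ) : AlgebraicClosure ℚ) ∈ F
        rw [Units.val_inv_eq_inv_val]
        exact inv_mem hg }
  have hU : radicalGroup S a P ρ ≤ U := by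
    rw [radicalGroup, Subgroup.closure_le]
    rintro g (⟨m, hm, hgm⟩ | ⟨i, m, hm, hg⟩)
    · show (g : AlgebraicClosure ℚ) ∈ F
      refine (le_sup_left : cyclotomicField S ≤ F)
        (IntermediateField.subset_adjoin _ _ ⟨m, hm, ?_⟩)
      rw [← Units.val_pow_eq_pow_val, hgm, Units.val_one]
    · show (g : AlgebraicClosure ℚ) ∈ F
      rw [hg]
      exact (le_sup_right : IntermediateField.adjoin ℚ
        {y | ∃ i, ∃ n ∈ Exponents (a i) (P i), y = ρ i n} ≤ F)
        (IntermediateField.subset_adjoin _ _ ⟨i, m, hm, rfl⟩)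
  rw [coordField, IntermediateField.adjoin_le_iff]
  rintro y ⟨g, hg, i, rfl⟩
  exact hU (hg i (Set.mem_univ i))

/-- **Rémond's inequality relative to groups of radicals of infinitely many prime orders.**

(A) Let `K` be a number field, `Γ` a finitely generated subgroup of `ℚ̄*` and `P₀` a finite set of
primes. There is `c > 0` such that the following holds for every field `B` with
`Γ ⊂ B ⊂ K(μ_∞, Γ^{1/m} : m a product of primes of P₀)`, all squarefree integers
`a₁, …, a_r ≥ 2` and all sets of primes `P₁, …, P_r`, finite or infinite, such that the sets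
`T_i = P_i ∪ {p ∣ a_i}` are pairwise disjoint and unramified in `B`, and the Wieferich primes
`p ∈ P_i` to the base `a_i` are odd and satisfy `∑ (log p) / p ≤ (log a_i) / 40`. Let `L` be the
field generated over `B` by compatible roots `a_i^{1/m}` for all `i` and all `m` composed of primes
of `P_i` and not divisible by the square of a Wieferich prime. Let `V` be a translate of a subtorus
of the torus of any dimension `n` by a point with coordinates in `L`, transverse relative to
`Γ⟨a₁, …, a_r⟩`. Then for every nonzero polynomial `f` with algebraic coefficients which vanishes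
on `V` and for every point `y` of `V`, the sum of the `deg_i(f) h(y_i)` is at least `c / 4000^r`.

(B) There is an absolute constant `c > 0` with the following property. Let the `a_i`, `P_i` be as in
(A), let `S` be a set of primes disjoint from all `T_i`, let `Λ` be the group generated by the roots
of unity of order composed of primes of `S` and by the roots `a_i^{1/m}` of (A), and let `V` be a
translate of a subtorus of the torus of dimension `n` by a point with coordinates in `ℚ(Λ^n)`,
transverse relative to `Λ`. Then the same inequality holds. -/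
theorem result :
    (∀ (K : IntermediateField ℚ (AlgebraicClosure ℚ)), FiniteDimensional ℚ K →
      ∀ (Γ : Subgroup (AlgebraicClosure ℚ)ˣ), Γ.FG →
      ∀ (P₀ : Finset ℕ), (∀ p ∈ P₀, p.Prime) →
      ∃ c : ℝ, 0 < c ∧
        ∀ B : IntermediateField ℚ (AlgebraicClosure ℚ), B ≤ smoothRootField K Γ P₀ →
        (∀ g ∈ Γ, (g : AlgebraicClosure ℚ) ∈ B) →
        ∀ (r : ℕ) (a : Fin r → ℕ) (P : Fin r → Set ℕ) (ρ : Fin r → ℕ → AlgebraicClosure ℚ),
          Data a P ρ → (∀ i, UnramifiedAt B (primesOf (a i) (P i))) →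
          ∀ (n d : ℕ) (x : Fin n → AlgebraicClosure ℚ) (e : Fin n → Fin d → ℤ),
            (∀ i, x i ∈ radicalField B a P ρ) → IsTransverse (Γ ⊔ group a) x e →
            ∀ f : MvPolynomial (Fin n) (AlgebraicClosure ℚ), f ≠ 0 →
              (∀ y ∈ translate x e, MvPolynomial.eval y f = 0) →
              ∀ y ∈ translate x e,
                c / 4000 ^ r ≤ ∑ i, (f.degreeOf i : ℝ) * NumberField.absLogHeight₁ (y i)) ∧
    (∃ c : ℝ, 0 < c ∧
      ∀ (r : ℕ) (a : Fin r → ℕ) (P : Fin r → Set ℕ) (ρ : Fin r → ℕ → AlgebraicClosure ℚ),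
        Data a P ρ → ∀ S : Set ℕ, (∀ i, Disjoint S (primesOf (a i) (P i))) →
        ∀ (n d : ℕ) (x : Fin n → AlgebraicClosure ℚ) (e : Fin n → Fin d → ℤ),
          (∀ i, x i ∈ coordField (power n (radicalGroup S a P ρ))) →
          IsTransverse (radicalGroup S a P ρ) x e →
          ∀ f : MvPolynomial (Fin n) (AlgebraicClosure ℚ), f ≠ 0 →
            (∀ y ∈ translate x e, MvPolynomial.eval y f = 0) →
            ∀ y ∈ translate x e,
              c / 4000 ^ r ≤ ∑ i, (f.degreeOf i : ℝ) * NumberField.absLogHeight₁ (y i)) := by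
  have hmain := Pool.Agent.Results.MP_f61260_nt.MixedRadicalFields.result
  refine ⟨?_, ?_⟩
  · intro K hK Γ hΓ P₀ hP₀
    obtain ⟨c, hc, h⟩ := hmain.1 K hK Γ hΓ P₀ hP₀
    refine ⟨c, hc, ?_⟩
    intro B hB hΓB r a P ρ hD hunr n d x e hxL hx f hf hV
    exact of_degree_one _ _ _ (h B hB hΓB r a P ρ hD hunr) x e hxL hx f hf hV
  · obtain ⟨c, hc, h⟩ := hmain.2
    refine ⟨c, hc, ?_⟩
    intro r a P ρ hD S hS n d x e hxL hx f hf hV
    exact of_degree_one _ _ _ (h r a P ρ hD S hS) x e (fun i => coordField_le n S a P ρ (hxL i))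
      (hx.mono (group_le hD S)) f hf hV

end Pool.Agent.Results.MP_187c26_nt.RadicalTranslates
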