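import Mathlib
import Pool.Agent.Y947.RL2.All2
import Pool.Agent.Y947.RL2.Alg
import Pool.Agent.Y433.RL.Hgt
import Pool.Agent.Y858.RL.Rep
import Pool.Agent.Y235.RL.Cnj
import Pool.Agent.Y932.RL.Tow

/-!
# The relative Lehmer problem over `K(μ_∞)` and the mean of `log⁺ |f|`

Let `z` be an algebraic integer, `z ≠ 0`, not a root of unity. Its minimal polynomial `f` over the
field `ℚ(μ_∞)` of all roots of unity is `F(ω₀, X)` for some monic `F ∈ ℤ[T][X]` and some primitive
`m`-th root of unity `ω₀`; the conjugates of `f` over `ℚ` are the polynomials `F(ω, X)`, `ω` running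
over the primitive `m`-th roots of unity. Let `M` be the mean over these `ω` of the mean of
`log⁺ |F(ω, x)|` over the unit circle `|x| = 1` (it depends on `z` only). There is an absolute
constant `c > 0` with

  `[K(μ_∞)(z) : K(μ_∞)] * h(z) ≥ (c / [K : ℚ]) / (1 + M) ^ 6`

for all these `z` and all number fields `K ⊆ ℂ`. Neither the degree of `z` nor the order `m` matters.
In particular the product is bounded below by a constant that only depends on `K` and on the length
of `F` (the sum of the absolute values of its coefficients), for all roots of unity `ω₀`.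

In the terms of Rémond's question this is the case `G = 𝔾_m`, `Γ` = the group of roots of unity,
`V = {z}`: the obstruction index is `ω_{K(Γ)}(V) = [K(μ_∞)(z) : K(μ_∞)]` and the essential minimum is
the height `h(z)`.

Method. Let `α` be a conjugate of `z`, `k = ℚ(ζ_m)`, `n = [k(α) : ℚ]`. The kernel `-log |1 - x conj y|`
is positive semidefinite; it is applied, simultaneously for all conjugates of the minimal polynomial
over `ℚ`, to contracted conjugates of `α` (an obstacle problem for the Poisson semigroup gives the
contraction factors, of total size controlled by `M`) and to their `p`-th powers, where a `p`-th power of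
a conjugate lying over the root of unity `ω` is put over all the roots of unity which are congruent
to `ω ^ p` modulo the primes above `p`. For `p ∤ m` the mutual energies are bounded by Frobenius
congruences. For `p ∥ m` let `H` be the stabiliser of the polynomial in
`Gal(ℚ(ζ_m) / ℚ(ζ_{m/p}))`: the product of the differences of `σ(α) ^ p` and the conjugates of `α` is
divisible by `(1 - ζ_p) ^ |H|`, and the polynomials of the `p`-th powers that belong to different
cosets of `H` are congruent modulo `p`, which makes their mutual energies negative; the two effects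
compensate each other. Primes with `p² ∣ m` are small after a reduction of `m`. The `p`-th powers of
conjugates over different roots of unity may coincide; this is removed by multiplying `α` by a
suitable root of unity (a cocycle with values in `μ_p`), and quotients of conjugates over `ℚ(μ_∞)`
that are roots of unity are removed by writing `f(X) = g(X ^ e)`.

Authors of the parts (`Pool/Agent/Y<n>/RL/`): helper26, helper65, helper70, helper93, helper162,
helper235, helper286, helper319, helper406, helper429, helper433, helper528, helper545, helper564,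
helper578, helper620, helper692, helper693, helper722, helper730, helper849, helper858, helper914,
helper917, helper929, helper932, helper950, helper968, helper994; proof on paper, statements and
assembly: helper947.
-/

set_option autoImplicit false

open Polynomial

namespace Pool.Agent.Results.MP_187c26_nt.RelativeLehmer

/-- the field `ℚ(μ_∞) ⊆ ℂ` generated by all roots of unity -/
noncomputable def QAb : IntermediateField ℚ ℂ :=
  IntermediateField.adjoin ℚ {z : ℂ | ∃ n : ℕ, 0 < n ∧ z ^ n = 1}

/-- the polynomial `F(ω, X)`, for `F ∈ ℤ[T][X]` -/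
noncomputable def spec {A : Type*} [CommRing A] (ω : A) (F : ℤ[X][X]) : A[X] :=
  F.map (aeval ω : ℤ[X] →ₐ[ℤ] A).toRingHom

/-- the absolute logarithmic height of an algebraic integer `z`: the logarithm of the Mahler measure
of its minimal polynomial over `ℤ`, divided by the degree -/
noncomputable def height (z : ℂ) : ℝ :=
  Real.log ((minpoly ℤ z).map (Int.castRingHom ℂ)).mahlerMeasure / (minpoly ℤ z).natDegree

/-- the mean over the primitive `m`-th roots of unity `ω` of the mean of `log⁺ |F(ω, x)|` over the
unit circle -/
noncomputable def logPlus (m : ℕ) (F : ℤ[X][X]) : ℝ :=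
  (∑ ω ∈ primitiveRoots m ℂ,
    Real.circleAverage (fun x : ℂ => Real.posLog ‖(spec ω F).eval x‖) 0 1) / Nat.totient m

theorem result : ∃ c : ℝ, 0 < c ∧ ∀ z : ℂ, IsIntegral ℤ z → z ≠ 0 →
    (∀ n : ℕ, 0 < n → z ^ n ≠ 1) →
    (∃ (m : ℕ) (ω₀ : QAb) (F : ℤ[X][X]), 0 < m ∧ IsPrimitiveRoot ω₀ m ∧ F.Monic ∧
      minpoly QAb z = spec ω₀ F) ∧
    ∀ (m : ℕ) (ω₀ : QAb) (F : ℤ[X][X]), 0 < m → IsPrimitiveRoot ω₀ m → F.Monic →
      minpoly QAb z = spec ω₀ F →
      ∀ (K : IntermediateField ℚ ℂ) [FiniteDimensional ℚ K],
        c / Module.finrank ℚ K / (1 + logPlus m F) ^ 6 ≤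
          (minpoly (K ⊔ QAb : IntermediateField ℚ ℂ) z).natDegree * height z := by
  obtain ⟨c, hc, h⟩ := Y947.RL2.alg Y947.RL2.t_fin (Y433.RL.hgt_mean Y65.RL.tr) Y858.RL.rep
    Y235.RL.Cnj.cnj (fun K _ z hz => Y932.RL.Tow.tow K z hz)
  refine ⟨c, hc, ?_⟩
  intro z hz h0 hroot
  obtain ⟨h1, h2⟩ := h z hz h0 hroot
  refine ⟨?_, ?_⟩
  · obtain ⟨m, ω₀, F, hm, hω, hF, heq⟩ := h1
    exact ⟨m, ω₀, F, hm, hω, hF, heq.symm⟩
  · intro m ω₀ F hm hω hF heq K _
    exact h2 m ω₀ F hm hω hF heq.symm K

end Pool.Agent.Results.MP_187c26_nt.RelativeLehmer
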